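import Pool.Agent.Helper77.KZ.Defs

/-!
Support file for MP_0aa406_nt (project KZ of helper77): patterns that are symmetric up to one
point have no small stuck sets (part A9 (v)).
-/

set_option autoImplicit false

namespace Pool.Agent.Helper28.KZ

open Finset Pool.Agent.Helper77.KZ
open scoped Pointwise

variable {n : ℕ}

theorem cd_aux [NeZero n] (hn : n ≠ 1) {A B : Finset (ZMod n)} (hA : A.Nonempty)
    (hB : B.Nonempty) (h : (A + B).card < n.minFac) : A.card + B.card ≤ (A + B).card + 1 := by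
  have h1 := cauchy_davenport_minOrder_add hA hB
  rw [ZMod.minOrder (NeZero.ne n) hn] at h1
  have h2 : min (n.minFac : ℕ∞) ((A.card + B.card - 1 : ℕ) : ℕ∞) ≤ ((A + B).card : ℕ∞) := h1
  rcases min_le_iff.1 h2 with h3 | h3
  · have h4 : n.minFac ≤ (A + B).card := by exact_mod_cast h3
    omega
  · have h4 : A.card + B.card - 1 ≤ (A + B).card := by exact_mod_cast h3
    omega

theorem orbit_inj_aux [NeZero n] {d : ZMod n} (hd : d ≠ 0) {i j : ℕ} (hi : i < n.minFac)
    (hj : j < n.minFac) (h : (i : ZMod n) * d = (j : ZMod n) * d) : i = j := by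
  have h1 : n.minFac ≤ addOrderOf d := by
    have h2 : addOrderOf d ∣ n := by
      rw [addOrderOf_dvd_iff_nsmul_eq_zero, nsmul_eq_mul]
      simp
    have h3 : addOrderOf d ≠ 1 := by
      rw [Ne, AddMonoid.addOrderOf_eq_one_iff]
      exact hd
    have h0 : 0 < addOrderOf d := Nat.pos_of_dvd_of_pos h2 (Nat.pos_of_ne_zero (NeZero.ne n))
    exact Nat.minFac_le_of_dvd (by omega) h2
  have h2 : i • d = j • d := by
    rw [nsmul_eq_mul, nsmul_eq_mul]; exact h
  exact nsmul_injOn_Iio_addOrderOf (Set.mem_Iio.2 (lt_of_lt_of_le hi h1))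
    (Set.mem_Iio.2 (lt_of_lt_of_le hj h1)) h2

theorem conv_swap [NeZero n] (φ ψ : ZMod n → ℤ) (A : Finset (ZMod n)) :
    ∑ s, (∑ a ∈ A, φ (s - a)) * (∑ a ∈ A, ψ (s - a))
      = ∑ z, (∑ a ∈ A, φ (a - z)) * (∑ a ∈ A, ψ (a - z)) := by
  have h1 : ∀ a a' : ZMod n, ∑ s, φ (s - a) * ψ (s - a') = ∑ z, φ (a' - z) * ψ (a - z) := by
    intro a a'
    refine (Equiv.sum_comp (Equiv.subLeft (a + a')) (fun s => φ (s - a) * ψ (s - a'))).symm.trans ?_
    refine sum_congr rfl (fun z _ => ?_)
    simp only [Equiv.subLeft_apply]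
    have e1 : a + a' - z - a = a' - z := by ring
    have e2 : a + a' - z - a' = a - z := by ring
    rw [e1, e2]
  have h2 : ∑ s, (∑ a ∈ A, φ (s - a)) * (∑ a ∈ A, ψ (s - a))
      = ∑ a ∈ A, ∑ a' ∈ A, ∑ s, φ (s - a) * ψ (s - a') := by
    simp only [sum_mul_sum]
    rw [sum_comm]
    exact sum_congr rfl (fun a _ => sum_comm)
  have h3 : ∑ z, (∑ a ∈ A, φ (a - z)) * (∑ a ∈ A, ψ (a - z))
      = ∑ a ∈ A, ∑ a' ∈ A, ∑ z, φ (a - z) * ψ (a' - z) := by
    simp only [sum_mul_sum]
    rw [sum_comm]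
    exact sum_congr rfl (fun a _ => sum_comm)
  rw [h2, h3, sum_comm]
  refine sum_congr rfl (fun a _ => sum_congr rfl (fun a' _ => ?_))
  rw [h1 a' a]

theorem costuck_aux [NeZero n] {g : ZMod n → ℤ} {A : Finset (ZMod n)} (h : Stuck g A)
    (y : ZMod n) (hy : ∃ a ∈ A, g (a - y) ≠ 0) : CE g A y = 1 := by
  classical
  have hE0 : ∀ s, ¬ Meets g A s → EE g A s = 0 := by
    intro s hs
    refine sum_eq_zero (fun l hl => ?_)
    by_contra hc
    exact hs ⟨l, hl, hc⟩
  -- the excess is `0` or `1`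
  have hE01 : ∀ s, EE g A s * EE g A s = EE g A s := by
    intro s
    by_cases hs : Meets g A s
    · rw [h s hs]; rfl
    · rw [hE0 s hs]; rfl
  -- sums over all rows
  have hshift : ∀ (φ : ZMod n → ℤ) (a : ZMod n), ∑ s, φ (s - a) = ∑ i, φ i := fun φ a =>
    Equiv.sum_comp (Equiv.subRight a) φ
  have hshift' : ∀ (φ : ZMod n → ℤ) (a : ZMod n), ∑ s, φ (a - s) = ∑ i, φ i := fun φ a =>
    Equiv.sum_comp (Equiv.subLeft a) φ
  have hs1 : ∀ φ : ZMod n → ℤ, ∑ s, ∑ a ∈ A, φ (s - a) = A.card * ∑ i, φ i := by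
    intro φ
    rw [sum_comm, sum_congr rfl (fun a _ => hshift φ a), sum_const, nsmul_eq_mul]
  have hs2 : ∀ φ : ZMod n → ℤ, ∑ z, ∑ a ∈ A, φ (a - z) = A.card * ∑ i, φ i := by
    intro φ
    rw [sum_comm, sum_congr rfl (fun a _ => hshift' φ a), sum_const, nsmul_eq_mul]
  have hsq : ∑ s, EE g A s * EE g A s = ∑ z, CE g A z * CE g A z := conv_swap g g A
  have hC01 : ∀ z, CE g A z * CE g A z - CE g A z = 0 := by
    have h1 : ∑ z, (CE g A z * CE g A z - CE g A z) = 0 := by
      have h3 : ∑ s, EE g A s = ∑ z, CE g A z := (hs1 g).trans (hs2 g).symm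
      rw [sum_sub_distrib, ← hsq, sum_congr rfl (fun s _ => hE01 s), h3, sub_self]
    have h2 : ∀ z ∈ (univ : Finset (ZMod n)), 0 ≤ CE g A z * CE g A z - CE g A z := by
      intro z _
      have : ∀ t : ℤ, 0 ≤ t * t - t := by
        intro t
        rcases le_or_gt t 0 with ht | ht
        · nlinarith
        · have : 1 ≤ t := ht
          nlinarith
      exact this _
    intro z
    exact (sum_eq_zero_iff_of_nonneg h2).1 h1 z (mem_univ z)
  have hC1 : ∀ z, CE g A z ≤ 1 := by
    intro z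
    have := hC01 z
    by_contra hc
    push Not at hc
    nlinarith
  -- weighted sums
  set χ : ZMod n → ℤ := fun i => if g i ≠ 0 then 1 else 0 with hχ
  have c1 : ∀ s, ∑ a ∈ A, χ (s - a) = ((cov g A s).card : ℤ) := by
    intro s
    simp only [hχ, cov, card_filter]
    push_cast
    rfl
  have c2 : ∀ z, ∑ a ∈ A, χ (a - z) = ((cocov g A z).card : ℤ) := by
    intro s
    simp only [hχ, cocov, card_filter]
    push_cast
    rfl
  have hw : ∑ s, ((cov g A s).card : ℤ) * EE g A s = ∑ z, ((cocov g A z).card : ℤ) * CE g A z := by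
    have := conv_swap χ g A
    simp only [c1, c2] at this
    exact this
  have hw1 : ∑ s, ((cov g A s).card : ℤ) * EE g A s = ∑ s, ((cov g A s).card : ℤ) := by
    refine sum_congr rfl (fun s _ => ?_)
    by_cases hs : Meets g A s
    · rw [h s hs, mul_one]
    · have : cov g A s = ∅ := by
        rw [cov, filter_eq_empty_iff]
        intro l hl hc
        exact hs ⟨l, hl, hc⟩
      rw [this]; simp
  have hw2 : ∑ s, ((cov g A s).card : ℤ) = ∑ z, ((cocov g A z).card : ℤ) := by
    have h1 := (hs1 χ).trans (hs2 χ).symm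
    simp only [c1, c2] at h1
    exact h1
  have hzero : ∑ z, ((cocov g A z).card : ℤ) * (1 - CE g A z) = 0 := by
    have : ∀ z ∈ (univ : Finset (ZMod n)), ((cocov g A z).card : ℤ) * (1 - CE g A z)
        = ((cocov g A z).card : ℤ) - ((cocov g A z).card : ℤ) * CE g A z := fun z _ => by ring
    rw [sum_congr rfl this, sum_sub_distrib, ← hw, hw1, hw2, sub_self]
  have hnn : ∀ z ∈ (univ : Finset (ZMod n)), 0 ≤ ((cocov g A z).card : ℤ) * (1 - CE g A z) :=
    fun z _ => mul_nonneg (Nat.cast_nonneg _) (by linarith [hC1 z])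
  have hy0 := (sum_eq_zero_iff_of_nonneg hnn).1 hzero y (mem_univ y)
  obtain ⟨a, ha, hga⟩ := hy
  have hpos : 0 < (cocov g A y).card := card_pos.2 ⟨a, by
    rw [cocov, mem_filter]; exact ⟨ha, hga⟩⟩
  have hne : ((cocov g A y).card : ℤ) ≠ 0 := by exact_mod_cast hpos.ne'
  rcases mul_eq_zero.1 hy0 with h0 | h0
  · exact absurd h0 hne
  · linarith

/-- KZ-10, with the co-stuck property as a hypothesis -/
theorem no_stuck_aux [NeZero n] (hn : n ≠ 1) {g : ZMod n → ℤ} (he : ∑ i, g i = 2)
    (hτ : 3 ≤ (TT g).card) {σ c : ZMod n} (hc : g c = 1) (hc2 : 2 * c ≠ σ)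
    (hsym : ∀ i, (if σ - i = c then 0 else g (σ - i)) = (if i = c then 0 else g i))
    {Y : Finset (ZMod n)} (hY : Stuck g Y) (hne : Y.Nonempty)
    (hco : ∀ y : ZMod n, (∃ a ∈ Y, g (a - y) ≠ 0) → CE g Y y = 1)
    (hsmall : (Y + TT g).card < n.minFac) : False := by
  classical
  set gJ : ZMod n → ℤ := fun i => if i = c then 0 else g i with hgJ
  have hsym' : ∀ i, gJ (σ - i) = gJ i := hsym
  have hgJc : gJ c = 0 := by simp [hgJ]
  have hg : ∀ i, g i = gJ i + if i = c then 1 else 0 := by
    intro i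
    by_cases h : i = c
    · subst h; simp [hgJ, hc]
    · simp [hgJ, h]
  have hne0 : ∀ i, gJ i ≠ 0 → g i ≠ 0 := by
    intro i hi
    by_cases h : i = c
    · subst h; exact absurd hgJc hi
    · have : gJ i = g i := by simp [hgJ, h]
      rwa [this] at hi
  set J : Finset (ZMod n) := univ.filter (fun i => gJ i ≠ 0) with hJ
  have hmemJ : ∀ i, i ∈ J ↔ gJ i ≠ 0 := by intro i; simp [hJ]
  have hJT : J ⊆ TT g := by
    intro i hi
    rw [hmemJ] at hi
    simp only [TT, mem_filter, mem_univ, true_and]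
    exact hne0 i hi
  have hTJ : TT g ⊆ insert c J := by
    intro i hi
    simp only [TT, mem_filter, mem_univ, true_and] at hi
    by_cases h : i = c
    · subst h; exact mem_insert_self _ _
    · refine mem_insert_of_mem ((hmemJ i).2 ?_)
      have : gJ i = g i := by simp [hgJ, h]
      rwa [this]
  have hJ2 : 2 ≤ J.card := by
    have h1 := card_le_card hTJ
    have h2 := card_insert_le c J
    omega
  have hJne : J.Nonempty := card_pos.1 (by omega)
  set H : Finset (ZMod n) := Y + J with hH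
  have hHs : H.card < n.minFac :=
    lt_of_le_of_lt (card_le_card (add_subset_add_left hJT)) hsmall
  have hcd : Y.card + J.card ≤ H.card + 1 := cd_aux hn hne hJne hHs
  set b : ZMod n → ℤ := fun s => ∑ y ∈ Y, gJ (s - y) with hb
  -- the excess in terms of `b`
  have hE : ∀ s, EE g Y s = b s + if s - c ∈ Y then 1 else 0 := by
    intro s
    simp only [EE, hb]
    rw [sum_congr rfl (fun y _ => hg (s - y)), sum_add_distrib]
    congr 1
    have : ∀ y ∈ Y, (if s - y = c then (1 : ℤ) else 0) = if s - c = y then 1 else 0 := by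
      intro y _
      have : s - y = c ↔ s - c = y := by
        constructor
        · intro h; rw [← h]; ring
        · intro h; rw [← h]; ring
      simp only [this]
    rw [sum_congr rfl this, sum_ite_eq]
  have hC : ∀ s, CE g Y (s - σ) = b s + if s - σ + c ∈ Y then 1 else 0 := by
    intro s
    simp only [CE, hb]
    rw [sum_congr rfl (fun y _ => hg (y - (s - σ))), sum_add_distrib]
    congr 1
    · refine sum_congr rfl (fun y _ => ?_)
      rw [← hsym' (s - y)]
      congr 1
      ring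
    · have : ∀ y ∈ Y, (if y - (s - σ) = c then (1 : ℤ) else 0)
          = if s - σ + c = y then 1 else 0 := by
        intro y _
        have : y - (s - σ) = c ↔ s - σ + c = y := by
          constructor
          · intro h; rw [← h]; ring
          · intro h; rw [← h]; ring
        simp only [this]
      rw [sum_congr rfl this, sum_ite_eq]
  have hbH : ∀ s ∈ H, b s = 1 - if s - c ∈ Y then 1 else 0 := by
    intro s hs
    obtain ⟨y, hy, j, hj, rfl⟩ := mem_add.1 hs
    have h1 : Meets g Y (y + j) := ⟨y, hy, by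
      rw [add_sub_cancel_left]; exact hne0 j ((hmemJ j).1 hj)⟩
    have h2 := hY _ h1
    rw [hE] at h2
    linarith
  have hbH' : ∀ s ∈ H, b s = 1 - if s - σ + c ∈ Y then 1 else 0 := by
    intro s hs
    obtain ⟨y, hy, j, hj, rfl⟩ := mem_add.1 hs
    have h1 : ∃ a ∈ Y, g (a - (y + j - σ)) ≠ 0 := by
      refine ⟨y, hy, hne0 _ ?_⟩
      have h3 : y - (y + j - σ) = σ - j := by ring
      rw [h3, hsym']
      exact (hmemJ j).1 hj
    have h2 := hco _ h1
    rw [hC] at h2
    linarith
  have hiff : ∀ s ∈ H, s - c ∈ Y ↔ s - σ + c ∈ Y := by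
    intro s hs
    have h1 := hbH s hs
    have h2 := hbH' s hs
    rw [h1] at h2
    constructor
    · intro h3
      by_contra h4
      rw [if_pos h3, if_neg h4] at h2
      norm_num at h2
    · intro h4
      by_contra h3
      rw [if_neg h3, if_pos h4] at h2
      norm_num at h2
  -- the sum of `b`
  have hsumJ : ∑ i, gJ i = 1 := by
    have h1 : ∑ i, g i = ∑ i, gJ i + 1 := by
      rw [sum_congr rfl (fun i _ => hg i), sum_add_distrib]
      simp
    linarith
  have hsumb : ∑ s, b s = Y.card := by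
    simp only [hb]
    rw [sum_comm]
    have : ∀ y ∈ Y, ∑ s, gJ (s - y) = 1 := by
      intro y _
      rw [← hsumJ]
      exact Equiv.sum_comp (Equiv.subRight y) gJ
    rw [sum_congr rfl this]
    simp
  have hb0 : ∀ s, s ∉ H → b s = 0 := by
    intro s hs
    simp only [hb]
    refine sum_eq_zero (fun y hy => ?_)
    by_contra h
    exact hs (mem_add.2 ⟨y, hy, s - y, (hmemJ _).2 h, by ring⟩)
  have hR : ∃ s ∈ H, s - c ∈ Y := by
    by_contra hcon
    push Not at hcon
    have h1 : ∑ s, b s = ∑ s ∈ H, b s := by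
      symm
      exact sum_subset (subset_univ _) (fun s _ hs => hb0 s hs)
    have h2 : ∑ s ∈ H, b s = (H.card : ℤ) := by
      have h5 : ∀ s ∈ H, b s = 1 := fun s hs => by
        rw [hbH s hs, if_neg (hcon s hs), sub_zero]
      rw [sum_congr rfl h5, sum_const, nsmul_eq_mul, mul_one]
    have h3 : (Y.card : ℤ) = (H.card : ℤ) := hsumb.symm.trans (h1.trans h2)
    have h4 : Y.card = H.card := Nat.cast_injective h3
    omega
  -- the chain
  set θ : ZMod n := 2 * c - σ with hθ
  have hθ0 : θ ≠ 0 := sub_ne_zero.2 hc2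
  have hstep : ∀ u v : ZMod n, u ∈ Y → v ∈ Y → u - v + c ∈ J →
      v - θ ∈ Y ∧ (v - θ) - u + c ∈ J := by
    intro u v hu hv hj
    have hj' : σ - (u - v + c) ∈ J := by
      rw [hmemJ, hsym']; exact (hmemJ _).1 hj
    have hs' : v + σ - c ∈ H := mem_add.2 ⟨u, hu, σ - (u - v + c), hj', by ring⟩
    have h1 := (hiff _ hs').2 (by
      have : v + σ - c - σ + c = v := by ring
      rw [this]; exact hv)
    refine ⟨?_, ?_⟩
    · have : v - θ = v + σ - c - c := by rw [hθ]; ring
      rw [this]; exact h1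
    · have : (v - θ) - u + c = σ - (u - v + c) := by rw [hθ]; ring
      rw [this]; exact hj'
  obtain ⟨s, hs, hsc⟩ := hR
  obtain ⟨v, hv, j, hj, hvj⟩ := mem_add.1 hs
  set u := s - c with hu
  have huv : u - v + c ∈ J := by
    have : u - v + c = j := by rw [hu, ← hvj]; ring
    rw [this]; exact hj
  have hchain : ∀ k : ℕ, u - (k : ZMod n) * θ ∈ Y ∧ v - (k : ZMod n) * θ ∈ Y ∧
      (u - (k : ZMod n) * θ) - (v - (k : ZMod n) * θ) + c ∈ J := by
    intro k
    induction k with
    | zero => simpa using ⟨hsc, hv, huv⟩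
    | succ k ih =>
      obtain ⟨h1, h2, h3⟩ := ih
      obtain ⟨h4, h5⟩ := hstep _ _ h1 h2 h3
      obtain ⟨h6, h7⟩ := hstep _ _ h4 h1 h5
      have e1 : u - ((k + 1 : ℕ) : ZMod n) * θ = u - (k : ZMod n) * θ - θ := by
        push_cast; ring
      have e2 : v - ((k + 1 : ℕ) : ZMod n) * θ = v - (k : ZMod n) * θ - θ := by
        push_cast; ring
      rw [e1, e2]
      exact ⟨h6, h4, h7⟩
  have hcard : n.minFac ≤ Y.card := by
    have h1 : (range n.minFac).card ≤ Y.card := by
      refine card_le_card_of_injOn (fun k : ℕ => u - (k : ZMod n) * θ)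
        (fun k _ => (hchain k).1) ?_
      intro i hi k hk hik
      have hi' : i < n.minFac := by simpa using hi
      have hk' : k < n.minFac := by simpa using hk
      have h2 : (i : ZMod n) * θ = (k : ZMod n) * θ := by
        have := hik
        simpa using this
      exact orbit_inj_aux hθ0 hi' hk' h2
    simpa using h1
  have hYle : Y.card ≤ H.card := card_le_card_add_right hJne
  omega

/-- KZ-10: such patterns have no small stuck sets -/
theorem no_stuck [NeZero n] (hn : n ≠ 1) {g : ZMod n → ℤ} (he : ∑ i, g i = 2)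
    (hτ : 3 ≤ (TT g).card) {σ c : ZMod n} (hc : g c = 1) (hc2 : 2 * c ≠ σ)
    (hsym : ∀ i, (if σ - i = c then 0 else g (σ - i)) = (if i = c then 0 else g i))
    {Y : Finset (ZMod n)} (hY : Stuck g Y) (hne : Y.Nonempty)
    (hsmall : (Y + TT g).card < n.minFac) : False :=
  no_stuck_aux hn he hτ hc hc2 hsym hY hne (fun y hy => costuck_aux hY y hy) hsmall

end Pool.Agent.Helper28.KZ
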